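import Pool.Agent.N162.GP.Stm

/-!
# GP/GTY: general type from the ratios of the canonical forms (helper487)
-/

set_option autoImplicit false

open FF Pool.Agent.W602.GT Pool.Agent.N162.BC

namespace Pool.Agent.N487.GP

open scoped IntermediateField.algebraAdjoinAdjoin in
theorem core {L : Type} [Field L] [Algebra ℂ L] {n : ℕ} (hn : Algebra.trdeg ℂ L = n) (R : Set L)
    (halg : Algebra.IsAlgebraic (IntermediateField.adjoin ℂ R) L) :
    ∃ f : Fin n → L, (∀ i, f i ∈ R) ∧ AlgebraicIndependent ℂ f := by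
  have h1 : Algebra.IsAlgebraic (Algebra.adjoin ℂ R) L :=
    (IsFractionRing.comap_isAlgebraic_iff (A := Algebra.adjoin ℂ R) (K := IntermediateField.adjoin ℂ R)
      (C := L)).2 halg
  obtain ⟨t, htR, ht⟩ := exists_isTranscendenceBasis_subset (R := ℂ) R
  have hcard : Cardinal.mk t = n := by
    rw [ht.cardinalMk_eq_trdeg]
    exact hn
  have hfin : Finite t := by
    rw [← Cardinal.lt_aleph0_iff_finite, hcard]
    exact Cardinal.natCast_lt_aleph0
  have hnc : Nat.card t = n := by
    rw [Nat.card, hcard]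
    simp
  have e : Fin n ≃ t := (Finite.equivFinOfCardEq hnc).symm
  exact ⟨fun i => (e i : L), fun i => htR (e i).2, (algebraicIndependent_equiv e).2 ht.1⟩

/-- **GP/GTY.** -/
theorem gty_ : Pool.Agent.N162.GP.StGTY := by
  intro n L _ _ ι T i₀ ω hn hpl hD hT0 hG halg
  obtain ⟨D, hD⟩ := hD
  obtain ⟨f, hf, hind⟩ := core hn _ halg
  choose s hs using hf
  refine ⟨hn, 1, one_pos, Fin.cons (fun D => T i₀ * ω D) (fun j D => T (s j) * ω D), ?_, ?_, D, ?_, ?_⟩
  · intro j
    refine Fin.cases ?_ (fun j => ?_) j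
    · exact (hG i₀).1
    · exact (hG (s j)).1
  · intro P hP j
    refine Fin.cases ?_ (fun j => ?_) j
    · exact (hG i₀).2 P hP
    · exact (hG (s j)).2 P hP
  · exact mul_ne_zero hT0 hD
  · have e : (fun i : Fin n => (Fin.cons (fun D => T i₀ * ω D) (fun j D => T (s j) * ω D) :
        Fin (n + 1) → (Fin n → Derivation ℂ L L) → L) i.succ D /
          (Fin.cons (fun D => T i₀ * ω D) (fun j D => T (s j) * ω D) :
        Fin (n + 1) → (Fin n → Derivation ℂ L L) → L) 0 D) = f := by
      funext i
      simp only [Fin.cons_succ, Fin.cons_zero]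
      rw [← hs i]
      exact mul_div_mul_right _ _ hD
    rw [e]
    exact hind

end Pool.Agent.N487.GP
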